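import Pool.Agent.H238.PH.Spec

set_option autoImplicit false

/-! Project PH (helper238), part O1: divergence theorem with one exceptional point. -/

namespace Pool.Agent.H719.PH

open MeasureTheory Set Filter Topology Pool.Agent.H238.PH
open scoped ContDiff

/-- the linear equivalence -/
noncomputable def LL : (Fin 2 → ℝ) ≃L[ℝ] RE 2 := (EuclideanSpace.equiv (Fin 2) ℝ).symm

lemma LL_apply (y : Fin 2 → ℝ) : LL y = WithLp.toLp 2 y := rfl

lemma LL_coord (y : Fin 2 → ℝ) (i : Fin 2) : LL y i = y i := rfl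

lemma LL_single (i : Fin 2) : LL (Pi.single i 1) = EuclideanSpace.single i 1 := rfl

lemma abs_le_norm_LL (y : Fin 2 → ℝ) (i : Fin 2) : |y i| ≤ ‖LL y‖ := by
  have := EuclideanSpace.norm_eq (LL y)
  rw [this]
  apply Real.le_sqrt_of_sq_le
  rw [sq_abs]
  have h : ∀ j ∈ Finset.univ, 0 ≤ ‖LL y j‖ ^ 2 := fun j _ => by positivity
  refine le_trans ?_ (Finset.single_le_sum h (Finset.mem_univ i))
  rw [Real.norm_eq_abs, sq_abs, LL_coord]

theorem t_O1 : S_O1 := by
  intro F hF hd hdiv η hη hηc
  have hη1 : ContDiff ℝ 1 η := hη.of_le (by norm_cast)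
  have hηd : Differentiable ℝ η := hη1.differentiable (by norm_num)
  obtain ⟨R, hR0, hR⟩ : ∃ R : ℝ, 0 < R ∧ ∀ x : RE 2, R ≤ ‖x‖ → x ∉ tsupport η := by
    obtain ⟨R, hR⟩ := hηc.isCompact.isBounded.exists_norm_le
    refine ⟨max R 0 + 1, by positivity, fun x hx hm => ?_⟩
    have h1 := hR x hm
    have h2 := le_max_left R 0
    linarith
  -- the integrand
  let DF : RE 2 → ℝ := fun x => ∑ i : Fin 2, F x i * fderiv ℝ η x (EuclideanSpace.single i 1)
  have hFi : ∀ i : Fin 2, Continuous fun x => F x i := fun i =>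
    (EuclideanSpace.proj (𝕜 := ℝ) i).continuous.comp hF
  have hDFc : Continuous DF := by
    refine continuous_finsetSum _ fun i _ => (hFi i).mul ?_
    exact (hη1.continuous_fderiv (by norm_num)).clm_apply continuous_const
  have hDF0 : ∀ x, x ∉ tsupport η → DF x = 0 := by
    intro x hx
    have h0 : fderiv ℝ η x = 0 := by
      by_contra h
      exact hx (support_fderiv_subset ℝ h)
    simp [DF, h0]
  let G : Fin 2 → RE 2 → ℝ := fun i x => η x * F x i
  have hGc : ∀ i, Continuous (G i) := fun i => hη.continuous.mul (hFi i)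
  have hG : ∀ i x, x ≠ 0 → HasFDerivAt (G i) (η x • ((EuclideanSpace.proj (𝕜 := ℝ) i).comp
      (fderiv ℝ F x)) + F x i • fderiv ℝ η x) x := by
    intro i x hx
    have h1 := (hηd x).hasFDerivAt
    have h2 : HasFDerivAt (fun x => F x i) ((EuclideanSpace.proj (𝕜 := ℝ) i).comp
      (fderiv ℝ F x)) x :=
      (EuclideanSpace.proj (𝕜 := ℝ) i).hasFDerivAt.comp x (hd x hx).hasFDerivAt
    exact h1.mul h2
  let G' : Fin 2 → (Fin 2 → ℝ) → ((Fin 2 → ℝ) →L[ℝ] ℝ) := fun i y =>
    (η (LL y) • ((EuclideanSpace.proj (𝕜 := ℝ) i).comp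
      (fderiv ℝ F (LL y))) + F (LL y) i • fderiv ℝ η (LL y)).comp (LL : (Fin 2 → ℝ) →L[ℝ] RE 2)
  have hsum : ∀ y : Fin 2 → ℝ, y ≠ 0 → ∑ i, G' i y (Pi.single i 1) = DF (LL y) := by
    intro y hy
    have hy' : LL y ≠ 0 := by
      intro h
      apply hy
      exact (map_eq_zero_iff LL LL.injective).mp h
    have h3 := hdiv _ hy'
    simp only [G', DF, ContinuousLinearMap.comp_apply, _root_.add_apply,
      _root_.smul_apply, ContinuousLinearEquiv.coe_coe, LL_single,
      Finset.sum_add_distrib, smul_eq_mul, ← Finset.mul_sum]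
    have h4 : ∑ i : Fin 2, (EuclideanSpace.proj (𝕜 := ℝ) i)
        ((fderiv ℝ F (LL y)) (EuclideanSpace.single i 1)) = 0 := h3
    rw [h4, mul_zero, zero_add]
  have hne : ∀ᵐ y : Fin 2 → ℝ, y ≠ 0 := by
    have : (volume ({0} : Set (Fin 2 → ℝ))) = 0 := measure_singleton 0
    exact compl_mem_ae_iff.mpr this
  have hae : (fun y => DF (LL y)) =ᵐ[volume] fun y => ∑ i, G' i y (Pi.single i 1) := by
    filter_upwards [hne] with y hy
    rw [hsum y hy]
  have hDFL : Continuous fun y => DF (LL y) := hDFc.comp LL.continuous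
  have hle : (fun _ => -R : Fin 2 → ℝ) ≤ fun _ => R := fun _ => by
    simp only
    linarith
  have key := integral_divergence_of_hasFDerivAt_off_countable' (fun _ => -R : Fin 2 → ℝ)
    (fun _ => R) hle (fun i y => G i (LL y)) G' {0} (Set.countable_singleton 0)
    (fun i => ((hGc i).comp LL.continuous).continuousOn)
    (fun y hy i => (hG i (LL y) (by
      intro h
      exact hy.2 ((map_eq_zero_iff LL LL.injective).mp h))).comp y LL.hasFDerivAt)
    ((hDFL.continuousOn.integrableOn_compact isCompact_Icc).congr (ae_restrict_of_ae hae))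
  have hG0 : ∀ i (y : Fin 2 → ℝ) (j : Fin 2), R ≤ |y j| → G i (LL y) = 0 := by
    intro i y j hj
    have h1 : LL y ∉ tsupport η := hR _ (hj.trans (abs_le_norm_LL y j))
    have h2 : η (LL y) = 0 := image_eq_zero_of_notMem_tsupport h1
    simp [G, h2]
  have hz : (∫ y in Icc (fun _ => -R : Fin 2 → ℝ) (fun _ => R), DF (LL y)) = 0 := by
    rw [integral_congr_ae (ae_restrict_of_ae hae)]
    refine key.trans ?_
    apply Finset.sum_eq_zero
    intro i _
    have e1 : ∀ x : Fin 1 → ℝ, G i (LL (i.insertNth R x)) = 0 := fun x =>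
      hG0 i _ i (by rw [Fin.insertNth_apply_same]; exact le_abs_self R)
    have e2 : ∀ x : Fin 1 → ℝ, G i (LL (i.insertNth (-R) x)) = 0 := fun x =>
      hG0 i _ i (by rw [Fin.insertNth_apply_same, abs_neg]; exact le_abs_self R)
    simp only [e1, e2, integral_zero, sub_zero]
  have hz2 : ∫ y, DF (LL y) = 0 := by
    rw [← hz]
    symm
    apply setIntegral_eq_integral_of_forall_compl_eq_zero
    intro y hy
    apply hDF0
    apply hR
    by_contra h
    push Not at h
    apply hy
    have hb : ∀ j, |y j| < R := fun j => (abs_le_norm_LL y j).trans_lt h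
    exact ⟨fun j => by have := abs_lt.mp (hb j); exact this.1.le,
      fun j => by have := abs_lt.mp (hb j); exact this.2.le⟩
  have hmp := PiLp.volume_preserving_toLp (Fin 2)
  have hfin : ∫ y, DF (LL y) = ∫ x, DF x := by
    have := hmp.integral_comp (MeasurableEquiv.toLp 2 (Fin 2 → ℝ)).measurableEmbedding DF
    exact this
  exact hfin.symm.trans hz2

end Pool.Agent.H719.PH

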